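import Mathlib
import Pool.Agent.Helper7.OT.Sinc

/-!
# From second moments in short intervals to averages (Tauberian lemma), part a
-/

set_option autoImplicit false

namespace Pool.Agent.K4H77.SV

open MeasureTheory Filter Topology Set FourierTransform
open scoped SchwartzMap

/-- the weight `1 / (1 + u²)` -/
noncomputable def Wt (u : ℝ) : ℝ := (1 + u ^ 2)⁻¹

lemma Wt_cont : Continuous Wt := by
  unfold Wt
  exact Continuous.inv₀ (by fun_prop) (fun u => by positivity)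

lemma Wt_pos (u : ℝ) : 0 < Wt u := by
  unfold Wt
  positivity

lemma Wt_le_one (u : ℝ) : Wt u ≤ 1 := by
  unfold Wt
  apply inv_le_one_of_one_le₀
  nlinarith [sq_nonneg u]

lemma Wt_le {u v : ℝ} (hv : 0 < v) (hu : v ≤ u) : Wt u ≤ (v ^ 2)⁻¹ := by
  unfold Wt
  apply inv_anti₀ (by positivity)
  nlinarith

lemma pow_four (n : ℕ) : ((4 : ℝ) ^ n) ^ (3 / 2 : ℝ) = 8 ^ n := by
  have h1 : (4 : ℝ) ^ n = ((2 : ℝ) ^ n) ^ (2 : ℝ) := by
    rw [show (2 : ℝ) = ((2 : ℕ) : ℝ) by norm_num, Real.rpow_natCast, ← pow_mul, mul_comm, pow_mul]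
    norm_num
  rw [h1, ← Real.rpow_mul (by positivity), show (2 : ℝ) * (3 / 2) = ((3 : ℕ) : ℝ) by norm_num,
    Real.rpow_natCast, ← pow_mul, mul_comm, pow_mul]
  norm_num

lemma block {g : ℝ → ℝ} (hg : Continuous g) (h0 : ∀ u, 0 ≤ g u) {C : ℝ}
    (hC : ∀ x : ℝ, 1 ≤ x → ∫ u in (0:ℝ)..x, g u ≤ C * x ^ (3 / 2 : ℝ)) (n : ℕ) :
    ∫ u in (0:ℝ)..(4 ^ n), Wt u * g u ≤ C + 16 * C * (1 - (1 / 2) ^ n) := by
  have hi : ∀ a b : ℝ, IntervalIntegrable g volume a b := fun a b => hg.intervalIntegrable a b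
  have hi2 : ∀ a b : ℝ, IntervalIntegrable (fun u => Wt u * g u) volume a b := fun a b =>
    (Wt_cont.mul hg).intervalIntegrable a b
  induction n with
  | zero =>
    have h1 := hC 1 le_rfl
    rw [Real.one_rpow, mul_one] at h1
    have h2 : ∫ u in (0:ℝ)..(4 ^ 0), Wt u * g u ≤ ∫ u in (0:ℝ)..(4 ^ 0), g u := by
      apply intervalIntegral.integral_mono_on (by norm_num) (hi2 _ _) (hi _ _)
      intro u _
      have := mul_le_mul_of_nonneg_right (Wt_le_one u) (h0 u)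
      simpa using this
    rw [pow_zero] at h2 ⊢
    rw [pow_zero]
    linarith
  | succ n ih =>
    have h4 : (1 : ℝ) ≤ 4 ^ n := one_le_pow₀ (by norm_num)
    have h4' : (4 : ℝ) ^ n ≤ 4 ^ (n + 1) := pow_le_pow_right₀ (by norm_num) (Nat.le_succ n)
    have h1 : ∫ u in (0:ℝ)..(4 ^ (n + 1)), Wt u * g u = (∫ u in (0:ℝ)..(4 ^ n), Wt u * g u)
        + ∫ u in ((4:ℝ) ^ n)..(4 ^ (n + 1)), Wt u * g u :=
      (intervalIntegral.integral_add_adjacent_intervals (hi2 _ _) (hi2 _ _)).symm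
    have h2 : ∫ u in ((4:ℝ) ^ n)..(4 ^ (n + 1)), Wt u * g u
        ≤ ∫ u in ((4:ℝ) ^ n)..(4 ^ (n + 1)), (((4 : ℝ) ^ n) ^ 2)⁻¹ * g u := by
      apply intervalIntegral.integral_mono_on h4' (hi2 _ _) ((hi _ _).const_mul _)
      intro u hu
      exact mul_le_mul_of_nonneg_right (Wt_le (by positivity) hu.1) (h0 u)
    rw [intervalIntegral.integral_const_mul] at h2
    have h3 : ∫ u in ((4:ℝ) ^ n)..(4 ^ (n + 1)), g u ≤ ∫ u in (0:ℝ)..(4 ^ (n + 1)), g u := by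
      have h5 : ∫ u in (0:ℝ)..(4 ^ (n + 1)), g u = (∫ u in (0:ℝ)..(4 ^ n), g u)
        + ∫ u in ((4:ℝ) ^ n)..(4 ^ (n + 1)), g u :=
        (intervalIntegral.integral_add_adjacent_intervals (hi _ _) (hi _ _)).symm
      have h6 : 0 ≤ ∫ u in (0:ℝ)..(4 ^ n), g u :=
        intervalIntegral.integral_nonneg (by positivity) (fun u _ => h0 u)
      linarith
    have h5 := hC (4 ^ (n + 1)) (h4.trans h4')
    rw [pow_four] at h5
    have h6 : (((4 : ℝ) ^ n) ^ 2)⁻¹ * (∫ u in ((4:ℝ) ^ n)..(4 ^ (n + 1)), g u)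
        ≤ (((4 : ℝ) ^ n) ^ 2)⁻¹ * (C * 8 ^ (n + 1)) :=
      mul_le_mul_of_nonneg_left (h3.trans h5) (by positivity)
    have h7 : (((4 : ℝ) ^ n) ^ 2)⁻¹ * (C * 8 ^ (n + 1)) = 8 * C * (1 / 2) ^ n := by
      have h8 : ((4 : ℝ) ^ n) ^ 2 = 8 ^ n * 2 ^ n := by
        rw [← mul_pow, ← pow_mul, mul_comm, pow_mul]
        norm_num
      rw [h8, one_div, inv_pow, pow_succ]
      field_simp
    rw [h1]
    rw [h7] at h6
    have h9 : C + 16 * C * (1 - (1 / 2) ^ (n + 1))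
        = (C + 16 * C * (1 - (1 / 2) ^ n)) + 8 * C * (1 / 2) ^ n := by
      rw [pow_succ]
      ring
    rw [h9]
    linarith

lemma W_int {g : ℝ → ℝ} (hg : Continuous g) (h0 : ∀ u, 0 ≤ g u) {C : ℝ}
    (hC : ∀ x : ℝ, 1 ≤ x → ∫ u in (0:ℝ)..x, g u ≤ C * x ^ (3 / 2 : ℝ)) :
    IntegrableOn (fun u => Wt u * g u) (Ioi 0) ∧ ∫ u in Ioi (0:ℝ), Wt u * g u ≤ 17 * C := by
  have hC0 : 0 ≤ C := by
    have h1 := hC 1 le_rfl
    rw [Real.one_rpow, mul_one] at h1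
    exact le_trans (intervalIntegral.integral_nonneg (by norm_num) (fun u _ => h0 u)) h1
  have hb : ∀ n : ℕ, ∫ u in (0:ℝ)..(4 ^ n), Wt u * g u ≤ 17 * C := by
    intro n
    have h1 := block hg h0 hC n
    have h2 : (0 : ℝ) < (1 / 2) ^ n := by positivity
    nlinarith
  have ht : Tendsto (fun n : ℕ => (4 : ℝ) ^ n) atTop atTop :=
    tendsto_pow_atTop_atTop_of_one_lt (by norm_num)
  have hI : IntegrableOn (fun u => Wt u * g u) (Ioi 0) := by
    refine integrableOn_Ioi_of_intervalIntegral_norm_bounded (17 * C) 0 (b := fun n : ℕ => (4:ℝ) ^ n)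
      (fun n => ?_) ht (Eventually.of_forall fun n => ?_)
    · exact ((Wt_cont.mul hg).integrableOn_Icc).mono_set Ioc_subset_Icc_self
    · have h1 : ∀ u, ‖Wt u * g u‖ = Wt u * g u := fun u =>
        Real.norm_of_nonneg (mul_nonneg (Wt_pos u).le (h0 u))
      simp only [h1]
      exact hb n
  refine ⟨hI, ?_⟩
  have h1 := intervalIntegral_tendsto_integral_Ioi (0:ℝ) hI ht
  exact le_of_tendsto' h1 hb

/-- the kernel -/
noncomputable def kk (ξ u : ℝ) : ℝ := 4 * Real.sin (Real.pi * ξ * u) ^ 2 / u ^ 2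

lemma kk_nonneg (ξ u : ℝ) : 0 ≤ kk ξ u := by
  unfold kk
  positivity

lemma kk_le (ξ u : ℝ) : kk ξ u ≤ (4 + (2 * Real.pi * ξ) ^ 2) * Wt u := by
  unfold kk Wt
  rcases eq_or_ne u 0 with rfl | hu
  · have : (0:ℝ) ≤ (4 + (2 * Real.pi * ξ) ^ 2) * (1 + (0:ℝ) ^ 2)⁻¹ := by positivity
    simpa using this
  have hu2 : 0 < u ^ 2 := by positivity
  rw [← div_eq_mul_inv, div_le_div_iff₀ hu2 (by positivity)]
  have h1 : Real.sin (Real.pi * ξ * u) ^ 2 ≤ 1 := Real.sin_sq_le_one _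
  have h2 : Real.sin (Real.pi * ξ * u) ^ 2 ≤ (Real.pi * ξ * u) ^ 2 := by
    rw [sq_le_sq]
    exact Real.abs_sin_le_abs
  nlinarith

lemma kk_meas : Measurable (fun p : ℝ × ℝ => kk p.2 p.1) := by
  unfold kk
  fun_prop

end Pool.Agent.K4H77.SV
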