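import Mathlib
import Pool.Agent.K4H77.SV.TLa

/-!
# From second moments in short intervals to averages (Tauberian lemma), part b: Fourier inversion
-/

set_option autoImplicit false

namespace Pool.Agent.K4H77.SV

open MeasureTheory Filter Topology Set FourierTransform
open scoped SchwartzMap

/-- Fourier inversion for an even function -/
lemma inv_formula (H : 𝓢(ℝ, ℂ)) (heven : ∀ u, H (-u) = H u) (hz : H 0 = 0) (u : ℝ) :
    ∫ ξ : ℝ, (((4 * Real.sin (Real.pi * ξ * u) ^ 2 : ℝ)) : ℂ) * (𝓕 H) ξ = -2 * H u := by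
  have hA : ∀ v : ℝ, H v = ∫ ξ : ℝ, Complex.exp (((2 * Real.pi * (ξ * v) : ℝ) : ℂ) * Complex.I)
      * (𝓕 H) ξ := by
    intro v
    have h1 : 𝓕⁻ (𝓕 H) = H := FourierTransform.fourierInv_fourier_eq H
    have h2 : H v = (𝓕⁻ (𝓕 H) : 𝓢(ℝ, ℂ)) v := by rw [h1]
    rw [h2, SchwartzMap.fourierInv_coe, Real.fourierInv_eq']
    refine integral_congr_ae (Eventually.of_forall fun ξ => ?_)
    have h3 : (inner ℝ ξ v : ℝ) = v * ξ := by simp
    simp only [h3, smul_eq_mul]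
    rw [mul_comm v ξ]
  have hInt : ∀ v : ℝ, Integrable (fun ξ : ℝ =>
      Complex.exp (((2 * Real.pi * (ξ * v) : ℝ) : ℂ) * Complex.I) * (𝓕 H) ξ) := by
    intro v
    have h0 : Continuous (fun ξ : ℝ => Complex.exp (((2 * Real.pi * (ξ * v) : ℝ) : ℂ)
      * Complex.I)) := by fun_prop
    refine ((𝓕 H).integrable (μ := volume)).bdd_mul (c := 1) h0.aestronglyMeasurable ?_
    refine Eventually.of_forall fun ξ => ?_
    rw [Complex.norm_exp_ofReal_mul_I]
  have h1 : ∀ ξ : ℝ, (((4 * Real.sin (Real.pi * ξ * u) ^ 2 : ℝ)) : ℂ) * (𝓕 H) ξ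
      = 2 * (Complex.exp (((2 * Real.pi * (ξ * 0) : ℝ) : ℂ) * Complex.I) * (𝓕 H) ξ)
        - Complex.exp (((2 * Real.pi * (ξ * u) : ℝ) : ℂ) * Complex.I) * (𝓕 H) ξ
        - Complex.exp (((2 * Real.pi * (ξ * (-u)) : ℝ) : ℂ) * Complex.I) * (𝓕 H) ξ := by
    intro ξ
    have h2 : (((4 * Real.sin (Real.pi * ξ * u) ^ 2 : ℝ)) : ℂ)
        = 2 * Complex.exp (((2 * Real.pi * (ξ * 0) : ℝ) : ℂ) * Complex.I)
          - Complex.exp (((2 * Real.pi * (ξ * u) : ℝ) : ℂ) * Complex.I)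
          - Complex.exp (((2 * Real.pi * (ξ * (-u)) : ℝ) : ℂ) * Complex.I) := by
      have h3 : (2 * Real.pi * (ξ * (-u)) : ℝ) = -(2 * (Real.pi * ξ * u)) := by ring
      have h4 : (2 * Real.pi * (ξ * u) : ℝ) = (2 * (Real.pi * ξ * u)) := by ring
      rw [h3, h4, mul_zero, mul_zero, Complex.ofReal_zero, zero_mul, Complex.exp_zero,
        Complex.exp_mul_I, Complex.exp_mul_I, ← Complex.ofReal_cos, ← Complex.ofReal_sin,
        ← Complex.ofReal_cos, ← Complex.ofReal_sin, Real.cos_neg, Real.sin_neg, Real.cos_two_mul]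
      have h5 := Real.sin_sq_add_cos_sq (Real.pi * ξ * u)
      have h6 : Real.sin (Real.pi * ξ * u) ^ 2 = 1 - Real.cos (Real.pi * ξ * u) ^ 2 := by linarith
      rw [h6]
      push_cast
      ring
    rw [h2]
    ring
  simp only [h1]
  rw [integral_sub, integral_sub, integral_const_mul, ← hA, ← hA, ← hA, heven, hz]
  · ring
  · exact (hInt 0).const_mul 2
  · exact hInt u
  · exact ((hInt 0).const_mul 2).sub (hInt u)
  · exact hInt (-u)

/-- the weighted `L¹` bound -/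
lemma four_wt (H : 𝓢(ℝ, ℂ)) :
    Integrable (fun ξ : ℝ => (4 + (2 * Real.pi * ξ) ^ 2) * ‖(𝓕 H) ξ‖) := by
  have h1 := (𝓕 H).integrable_pow_mul volume 0
  have h2 := (𝓕 H).integrable_pow_mul volume 2
  have h3 := (h1.const_mul 4).add (h2.const_mul ((2 * Real.pi) ^ 2))
  refine h3.congr (Eventually.of_forall fun ξ => ?_)
  simp only [Pi.add_apply, pow_zero, one_mul, Real.norm_eq_abs, sq_abs]
  ring

/-- the double integral -/
lemma dbl_int {g : ℝ → ℝ} (hg : Continuous g) (h0 : ∀ u, 0 ≤ g u)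
    (hW : IntegrableOn (fun u => Wt u * g u) (Ioi 0)) (H : 𝓢(ℝ, ℂ)) :
    Integrable (Function.uncurry (fun (u ξ : ℝ) => ((kk ξ u * g u : ℝ) : ℂ) * (𝓕 H) ξ))
      ((volume.restrict (Ioi (0:ℝ))).prod volume) := by
  have h1 := Integrable.mul_prod (μ := volume.restrict (Ioi (0:ℝ))) (ν := volume) hW (four_wt H)
  refine h1.mono' ?_ (Eventually.of_forall fun p => ?_)
  · apply Measurable.aestronglyMeasurable
    apply Measurable.mul
    · apply Complex.measurable_ofReal.comp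
      exact kk_meas.mul (hg.measurable.comp measurable_fst)
    · exact (𝓕 H).continuous.measurable.comp measurable_snd
  · obtain ⟨u, ξ⟩ := p
    simp only [Function.uncurry]
    rw [norm_mul, Complex.norm_real, Real.norm_of_nonneg (mul_nonneg (kk_nonneg _ _) (h0 _))]
    have h2 := mul_le_mul_of_nonneg_right (kk_le ξ u) (h0 u)
    have h3 := mul_le_mul_of_nonneg_right h2 (norm_nonneg ((𝓕 H) ξ))
    refine h3.trans (le_of_eq ?_)
    ring

/-- the inner integral -/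
noncomputable def GG (g : ℝ → ℝ) (ξ : ℝ) : ℝ := ∫ u in Ioi (0:ℝ), kk ξ u * g u

lemma GG_int {g : ℝ → ℝ} (hg : Continuous g) (h0 : ∀ u, 0 ≤ g u)
    (hW : IntegrableOn (fun u => Wt u * g u) (Ioi 0)) (H : 𝓢(ℝ, ℂ)) :
    Integrable (fun ξ => (GG g ξ : ℂ) * (𝓕 H) ξ) := by
  have h1 := (dbl_int hg h0 hW H).integral_prod_right
  refine h1.congr (Eventually.of_forall fun ξ => ?_)
  simp only [Function.uncurry]
  rw [integral_mul_const, integral_complex_ofReal]
  rfl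

lemma rep {g : ℝ → ℝ} (hg : Continuous g) (h0 : ∀ u, 0 ≤ g u)
    (hW : IntegrableOn (fun u => Wt u * g u) (Ioi 0)) (H : 𝓢(ℝ, ℂ))
    (heven : ∀ u, H (-u) = H u) (hz : H 0 = 0) :
    ∫ u in Ioi (0:ℝ), (H u / (u : ℂ) ^ 2) * (g u : ℂ)
      = -(1 / 2) * ∫ ξ, (GG g ξ : ℂ) * (𝓕 H) ξ := by
  have h1 := integral_integral_swap (dbl_int hg h0 hW H)
  have h2 : ∀ ξ, ∫ u in Ioi (0:ℝ), ((kk ξ u * g u : ℝ) : ℂ) * (𝓕 H) ξ = (GG g ξ : ℂ) * (𝓕 H) ξ := by
    intro ξ
    rw [integral_mul_const, integral_complex_ofReal]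
    rfl
  simp only [h2] at h1
  rw [← h1, ← integral_const_mul]
  refine setIntegral_congr_fun measurableSet_Ioi (fun u hu => ?_)
  have hu0 : (u : ℂ) ≠ 0 := by
    have : (0:ℝ) < u := hu
    exact_mod_cast this.ne'
  have h3 : ∀ ξ : ℝ, ((kk ξ u * g u : ℝ) : ℂ) * (𝓕 H) ξ
      = ((g u : ℂ) / (u : ℂ) ^ 2) * ((((4 * Real.sin (Real.pi * ξ * u) ^ 2 : ℝ)) : ℂ) * (𝓕 H) ξ) := by
    intro ξ
    unfold kk
    push_cast
    ring
  simp only [h3]
  rw [integral_const_mul, inv_formula H heven hz u]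
  ring

lemma GG_bound {g : ℝ → ℝ} (hg : Continuous g) (h0 : ∀ u, 0 ≤ g u) {C : ℝ}
    (hC : ∀ x : ℝ, 1 ≤ x → ∫ u in (0:ℝ)..x, g u ≤ C * x ^ (3 / 2 : ℝ)) (ξ : ℝ) :
    0 ≤ GG g ξ ∧ GG g ξ ≤ (4 + (2 * Real.pi * ξ) ^ 2) * (17 * C) := by
  obtain ⟨h1, h2⟩ := W_int hg h0 hC
  constructor
  · exact setIntegral_nonneg measurableSet_Ioi
      (fun u _ => mul_nonneg (kk_nonneg _ _) (h0 u))
  · have h3 : GG g ξ ≤ ∫ u in Ioi (0:ℝ), (4 + (2 * Real.pi * ξ) ^ 2) * (Wt u * g u) := by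
      apply integral_mono_of_nonneg
      · exact Eventually.of_forall fun u => mul_nonneg (kk_nonneg _ _) (h0 u)
      · exact h1.const_mul _
      · refine Eventually.of_forall fun u => ?_
        have := mul_le_mul_of_nonneg_right (kk_le ξ u) (h0 u)
        simp only
        linarith
    rw [integral_const_mul] at h3
    exact h3.trans (mul_le_mul_of_nonneg_left h2 (by positivity))

end Pool.Agent.K4H77.SV
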