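import Mathlib
import Pool.Agent.K4H77.SV.TLb

/-!
# From second moments in short intervals to averages (Tauberian lemma)
-/

set_option autoImplicit false

namespace Pool.Agent.K4H77.SV

open MeasureTheory Filter Topology Set FourierTransform
open scoped SchwartzMap

/-- `∫_{u > 0} 4 sin² (κ u / 2) / u² du = π κ` -/
lemma sin_int {κ : ℝ} (hκ : 0 < κ) :
    ∫ u in Ioi (0:ℝ), 4 * Real.sin (κ * u / 2) ^ 2 / u ^ 2 = Real.pi * κ := by
  have hint : Integrable (fun t : ℝ => Real.sinc (Real.pi * t) ^ 2) :=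
    Pool.Agent.Helper7.Simplex.OT.J26884.sinc_fourier_int
  have h1 : ∫ t : ℝ, Real.sinc (Real.pi * t) ^ 2 = 1 := by
    have := (Pool.Agent.Helper7.Simplex.OT.J26884.sinc_fourier 0).2
    simpa using this
  have h2 : ∫ t : ℝ, Real.sinc t ^ 2 = Real.pi := by
    have h := Measure.integral_comp_mul_left (fun t : ℝ => Real.sinc t ^ 2) Real.pi
    rw [h1, abs_of_pos (inv_pos.2 Real.pi_pos), smul_eq_mul] at h
    have hpi := Real.pi_ne_zero
    field_simp at h
    linarith
  have h3 : ∫ t in Ioi (0:ℝ), Real.sinc t ^ 2 = Real.pi / 2 := by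
    have h := integral_comp_abs (f := fun t : ℝ => Real.sinc t ^ 2)
    have h' : ∀ t : ℝ, Real.sinc |t| ^ 2 = Real.sinc t ^ 2 := by
      intro t
      rcases abs_choice t with ht | ht <;> rw [ht]
      rw [Real.sinc_neg]
    simp_rw [h'] at h
    rw [h2] at h
    linarith
  have h4 := integral_comp_mul_left_Ioi (fun t : ℝ => Real.sinc t ^ 2) 0
    (show (0:ℝ) < κ / 2 by positivity)
  rw [mul_zero, h3, smul_eq_mul] at h4
  have h5 : ∫ u in Ioi (0:ℝ), 4 * Real.sin (κ * u / 2) ^ 2 / u ^ 2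
      = ∫ u in Ioi (0:ℝ), κ ^ 2 * Real.sinc (κ / 2 * u) ^ 2 := by
    refine setIntegral_congr_fun measurableSet_Ioi (fun u hu => ?_)
    have hu0 : (0:ℝ) < u := hu
    rw [Real.sinc_of_ne_zero (by positivity), show κ * u / 2 = κ / 2 * u by ring]
    field_simp
    ring
  rw [h5, integral_const_mul, h4]
  field_simp

lemma kk_eq (ξ u : ℝ) : kk ξ u = 4 * Real.sin (2 * Real.pi * |ξ| * u / 2) ^ 2 / u ^ 2 := by
  unfold kk
  have h1 : 2 * Real.pi * |ξ| * u / 2 = Real.pi * |ξ| * u := by ring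
  rw [h1]
  rcases abs_choice ξ with h | h <;> rw [h]
  have h2 : Real.pi * -ξ * u = -(Real.pi * ξ * u) := by ring
  rw [h2, Real.sin_neg, neg_sq]

lemma GG_one (ξ : ℝ) : GG (fun _ => 1) ξ = Real.pi * (2 * Real.pi * |ξ|) := by
  unfold GG
  simp only [mul_one, kk_eq]
  rcases eq_or_ne ξ 0 with rfl | hξ
  · simp
  · exact sin_int (by positivity)

/-- the limit for smooth test functions -/
lemma limit_H {f : ℝ → ℝ → ℝ} {S C : ℝ} (hf : ∀ T, Continuous (f T)) (h0 : ∀ T u, 0 ≤ f T u)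
    (hC : ∀ᶠ T : ℝ in atTop, ∀ x : ℝ, 1 ≤ x → ∫ u in (0:ℝ)..x, f T u ≤ C * x ^ (3 / 2 : ℝ))
    (hlim : ∀ κ : ℝ, 0 < κ → Tendsto (fun T => ∫ u in Ioi (0:ℝ),
      4 * Real.sin (κ * u / 2) ^ 2 / u ^ 2 * f T u) atTop (𝓝 (Real.pi * κ * S)))
    (H : 𝓢(ℝ, ℂ)) (heven : ∀ u, H (-u) = H u) (hz : H 0 = 0) :
    Tendsto (fun T => ∫ u in Ioi (0:ℝ), (H u / (u : ℂ) ^ 2) * (f T u : ℂ)) atTop
      (𝓝 ((S : ℂ) * ∫ u in Ioi (0:ℝ), (H u / (u : ℂ) ^ 2))) := by
  have hW1 : IntegrableOn (fun u => Wt u * (fun _ : ℝ => (1:ℝ)) u) (Ioi 0) := by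
    simp only [mul_one]
    exact integrable_inv_one_add_sq.integrableOn
  have h1 := rep (g := fun _ => 1) continuous_const (fun _ => zero_le_one) hW1 H heven hz
  simp only [Complex.ofReal_one, mul_one, GG_one] at h1
  have hlimG : ∀ ξ : ℝ, Tendsto (fun T => GG (f T) ξ) atTop
      (𝓝 (Real.pi * (2 * Real.pi * |ξ|) * S)) := by
    intro ξ
    unfold GG
    simp only [kk_eq]
    rcases eq_or_ne ξ 0 with rfl | hξ
    · simp
    · exact hlim (2 * Real.pi * |ξ|) (by positivity)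
  have h2 : Tendsto (fun T => ∫ ξ, (GG (f T) ξ : ℂ) * (𝓕 H) ξ) atTop
      (𝓝 (∫ ξ, ((Real.pi * (2 * Real.pi * |ξ|) * S : ℝ) : ℂ) * (𝓕 H) ξ)) := by
    refine tendsto_integral_filter_of_dominated_convergence
      (fun ξ => (17 * C) * ((4 + (2 * Real.pi * ξ) ^ 2) * ‖(𝓕 H) ξ‖)) ?_ ?_ ?_ ?_
    · filter_upwards [hC] with T hT
      exact (GG_int (hf T) (h0 T) (W_int (hf T) (h0 T) hT).1 H).aestronglyMeasurable
    · filter_upwards [hC] with T hT
      refine Eventually.of_forall fun ξ => ?_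
      obtain ⟨h3, h4⟩ := GG_bound (hf T) (h0 T) hT ξ
      rw [norm_mul, Complex.norm_real, Real.norm_of_nonneg h3]
      have h5 := mul_le_mul_of_nonneg_right h4 (norm_nonneg ((𝓕 H) ξ))
      refine h5.trans (le_of_eq ?_)
      ring
    · exact (four_wt H).const_mul _
    · refine Eventually.of_forall fun ξ => ?_
      exact ((Complex.continuous_ofReal.tendsto _).comp (hlimG ξ)).mul_const _
  have h3 : (S : ℂ) * ∫ u in Ioi (0:ℝ), (H u / (u : ℂ) ^ 2)
      = -(1 / 2) * ∫ ξ, ((Real.pi * (2 * Real.pi * |ξ|) * S : ℝ) : ℂ) * (𝓕 H) ξ := by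
    rw [h1, ← integral_const_mul, ← integral_const_mul, ← integral_const_mul]
    refine integral_congr_ae (Eventually.of_forall fun ξ => ?_)
    simp only
    push_cast
    ring
  rw [h3]
  refine (h2.const_mul (-(1 / 2) : ℂ)).congr' ?_
  filter_upwards [hC] with T hT
  exact (rep (hf T) (h0 T) (W_int (hf T) (h0 T) hT).1 H heven hz).symm

/-- the limit for bumps supported in `(0, ∞)` -/
lemma limit_bump {f : ℝ → ℝ → ℝ} {S C : ℝ} (hf : ∀ T, Continuous (f T)) (h0 : ∀ T u, 0 ≤ f T u)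
    (hC : ∀ᶠ T : ℝ in atTop, ∀ x : ℝ, 1 ≤ x → ∫ u in (0:ℝ)..x, f T u ≤ C * x ^ (3 / 2 : ℝ))
    (hlim : ∀ κ : ℝ, 0 < κ → Tendsto (fun T => ∫ u in Ioi (0:ℝ),
      4 * Real.sin (κ * u / 2) ^ 2 / u ^ 2 * f T u) atTop (𝓝 (Real.pi * κ * S)))
    {c : ℝ} (β : ContDiffBump c) (hc : β.rOut ≤ c) :
    Tendsto (fun T => ∫ u in Ioi (0:ℝ), β u * f T u) atTop (𝓝 (S * ∫ u in Ioi (0:ℝ), β u)) := by
  have hneg : ∀ u : ℝ, u ≤ 0 → β u = 0 := by
    intro u hu
    apply β.zero_of_le_dist
    rw [Real.dist_eq, abs_of_nonpos (by have := β.rOut_pos; linarith)]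
    linarith
  let h : ℝ → ℂ := fun u => ((u ^ 2 * (β u + β (-u)) : ℝ) : ℂ)
  have hsm : ContDiff ℝ ((⊤ : ℕ∞) : WithTop ℕ∞) h := by
    apply Complex.ofRealCLM.contDiff.comp
    have h1 : ContDiff ℝ ((⊤ : ℕ∞) : WithTop ℕ∞) (fun u : ℝ => β u) := β.contDiff
    exact (contDiff_id.pow 2).mul (h1.add (h1.comp contDiff_neg))
  have hcs : HasCompactSupport h := by
    have h1 : HasCompactSupport (fun u : ℝ => β (-u)) :=
      β.hasCompactSupport.comp_homeomorph (Homeomorph.neg ℝ)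
    have h2 : HasCompactSupport (fun u : ℝ => β u + β (-u)) := β.hasCompactSupport.add h1
    have h3 : HasCompactSupport (fun u : ℝ => u ^ 2 * (β u + β (-u))) := h2.mul_left
    exact h3.comp_left (g := fun x : ℝ => (x : ℂ)) (by simp)
  let H : 𝓢(ℝ, ℂ) := hcs.toSchwartzMap hsm
  have hH : ∀ u, H u = ((u ^ 2 * (β u + β (-u)) : ℝ) : ℂ) := fun u => rfl
  have heven : ∀ u, H (-u) = H u := by
    intro u
    rw [hH, hH, neg_neg, neg_sq, add_comm]
  have hz : H 0 = 0 := by
    rw [hH]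
    simp
  have hpos : ∀ u : ℝ, 0 < u → H u / (u : ℂ) ^ 2 = (β u : ℂ) := by
    intro u hu
    rw [hH, hneg (-u) (by linarith), add_zero]
    have hu0 : (u : ℂ) ≠ 0 := by exact_mod_cast hu.ne'
    push_cast
    field_simp
  have h1 := limit_H hf h0 hC hlim H heven hz
  have h2 : ∀ T, ∫ u in Ioi (0:ℝ), (H u / (u : ℂ) ^ 2) * (f T u : ℂ)
      = ((∫ u in Ioi (0:ℝ), β u * f T u : ℝ) : ℂ) := by
    intro T
    rw [← integral_complex_ofReal]
    refine setIntegral_congr_fun measurableSet_Ioi (fun u hu => ?_)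
    rw [hpos u hu]
    push_cast
    rfl
  have h3 : ∫ u in Ioi (0:ℝ), (H u / (u : ℂ) ^ 2) = ((∫ u in Ioi (0:ℝ), β u : ℝ) : ℂ) := by
    rw [← integral_complex_ofReal]
    exact setIntegral_congr_fun measurableSet_Ioi (fun u hu => hpos u hu)
  simp only [h2, h3] at h1
  have h4 := (Complex.continuous_re.tendsto _).comp h1
  simpa [Function.comp_def] using h4

/-- **The Tauberian lemma**: the short interval second moments `∫ 4 sin² (κ u / 2) / u² f_T (u) du`
determine the averages of `f_T`. -/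
theorem tl : ∀ (f : ℝ → ℝ → ℝ) (S C : ℝ), (∀ T, Continuous (f T)) → (∀ T u, 0 ≤ f T u) →
    (∀ᶠ T : ℝ in atTop, ∀ x : ℝ, 1 ≤ x → ∫ u in (0:ℝ)..x, f T u ≤ C * x ^ (3 / 2 : ℝ)) →
    (∀ κ : ℝ, 0 < κ → Tendsto (fun T => ∫ u in Ioi (0:ℝ),
      4 * Real.sin (κ * u / 2) ^ 2 / u ^ 2 * f T u) atTop (𝓝 (Real.pi * κ * S))) →
    ∀ a b : ℝ, 0 < a → a < b →
      Tendsto (fun T => ∫ u in a..b, f T u) atTop (𝓝 (S * (b - a))) := by
  intro f S C hf h0 hC hlim a b ha hab
  -- `S` is nonnegative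
  have hS : 0 ≤ S := by
    have h1 : 0 ≤ Real.pi * 1 * S := by
      refine ge_of_tendsto' (hlim 1 one_pos) (fun T => ?_)
      exact setIntegral_nonneg measurableSet_Ioi
        (fun u _ => mul_nonneg (by positivity) (h0 T u))
    rw [mul_one] at h1
    exact nonneg_of_mul_nonneg_right h1 Real.pi_pos
  -- a bump
  have hbump : ∀ p q : ℝ, 0 < p → p < q → q ≤ (a + b) / 2 →
      ∃ β : ContDiffBump ((a + b) / 2), β.rIn = p ∧ β.rOut = q := by
    intro p q hp hpq _
    exact ⟨⟨p, q, hp, hpq⟩, rfl, rfl⟩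
  have hcomp : ∀ (β : ContDiffBump ((a + b) / 2)) (g : ℝ → ℝ), Continuous g →
      β.rOut ≤ (a + b) / 2 →
      ∫ u in Ioi (0:ℝ), β u * g u
        = ∫ u in ((a + b) / 2 - β.rOut)..((a + b) / 2 + β.rOut), β u * g u := by
    intro β g hg hβ
    have hr := β.rOut_pos
    rw [intervalIntegral.integral_of_le (by linarith)]
    apply setIntegral_eq_of_subset_of_forall_diff_eq_zero measurableSet_Ioi
    · intro u hu
      have := hu.1
      change 0 < u
      linarith
    · intro u hu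
      have h1 : β u = 0 := by
        apply β.zero_of_le_dist
        rw [Real.dist_eq]
        by_contra hcon
        push Not at hcon
        rw [abs_lt] at hcon
        exact hu.2 ⟨by linarith, by linarith⟩
      rw [h1, zero_mul]
  have hlimb : ∀ β : ContDiffBump ((a + b) / 2), β.rOut ≤ (a + b) / 2 →
      Tendsto (fun T => ∫ u in Ioi (0:ℝ), β u * f T u) atTop
        (𝓝 (S * ∫ u in Ioi (0:ℝ), β u)) := fun β hβ => limit_bump hf h0 hC hlim β hβ
  have hβi : ∀ (β : ContDiffBump ((a + b) / 2)) (g : ℝ → ℝ), Continuous g → ∀ x y : ℝ,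
      IntervalIntegrable (fun u => β u * g u) volume x y := fun β g hg x y =>
    (β.continuous.mul hg).intervalIntegrable x y
  rw [tendsto_order]
  constructor
  · intro y hy
    have hev : ∀ᶠ δ : ℝ in 𝓝[>] 0, y < S * ((b - a) - 2 * δ) ∧ δ < (b - a) / 2 := by
      have h1 : Tendsto (fun δ : ℝ => S * ((b - a) - 2 * δ)) (𝓝[>] 0)
          (𝓝 (S * ((b - a) - 2 * 0))) := by
        apply Tendsto.mono_left _ nhdsWithin_le_nhds
        exact Continuous.tendsto (by fun_prop) 0
      rw [mul_zero, sub_zero] at h1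
      filter_upwards [h1.eventually (lt_mem_nhds hy),
        nhdsWithin_le_nhds (gt_mem_nhds (show (0:ℝ) < (b - a) / 2 by linarith))] with δ h2 h3
      exact ⟨h2, h3⟩
    obtain ⟨δ, ⟨hδ1, hδ2⟩, hδ0⟩ := (hev.and self_mem_nhdsWithin).exists
    have hδ0' : (0:ℝ) < δ := hδ0
    obtain ⟨β, hβ1, hβ2⟩ := hbump ((b - a) / 2 - δ) ((b - a) / 2) (by linarith) (by linarith)
      (by linarith)
    have hle : β.rOut ≤ (a + b) / 2 := by rw [hβ2]; linarith
    have e1 : (a + b) / 2 - β.rOut = a := by rw [hβ2]; ring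
    have e2 : (a + b) / 2 + β.rOut = b := by rw [hβ2]; ring
    have h1 : (b - a) - 2 * δ ≤ ∫ u in Ioi (0:ℝ), β u := by
      have h2 := hcomp β (fun _ => 1) continuous_const hle
      simp only [mul_one] at h2
      rw [h2, e1, e2]
      have h3 : ∫ u in (a + δ)..(b - δ), β u = (b - a) - 2 * δ := by
        have h4 : ∫ u in (a + δ)..(b - δ), β u = ∫ u in (a + δ)..(b - δ), (1:ℝ) := by
          apply intervalIntegral.integral_congr
          intro u hu
          rw [uIcc_of_le (by linarith)] at hu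
          apply β.one_of_mem_closedBall
          rw [Metric.mem_closedBall, Real.dist_eq, hβ1, abs_le]
          constructor <;> linarith [hu.1, hu.2]
        rw [h4]
        simp
        ring
      rw [← h3]
      exact intervalIntegral.integral_mono_interval (by linarith) (by linarith) (by linarith)
        (Eventually.of_forall fun u => β.nonneg) (β.continuous.intervalIntegrable _ _)
    have h2 : y < S * ∫ u in Ioi (0:ℝ), β u :=
      lt_of_lt_of_le hδ1 (mul_le_mul_of_nonneg_left h1 hS)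
    filter_upwards [(hlimb β hle).eventually (lt_mem_nhds h2)] with T hT
    refine lt_of_lt_of_le hT ?_
    rw [hcomp β (f T) (hf T) hle, e1, e2]
    apply intervalIntegral.integral_mono_on hab.le (hβi β _ (hf T) _ _)
      ((hf T).intervalIntegrable _ _)
    intro u _
    have := mul_le_mul_of_nonneg_right (β.le_one (x := u)) (h0 T u)
    simpa using this
  · intro y hy
    have hev : ∀ᶠ δ : ℝ in 𝓝[>] 0, S * ((b - a) + 2 * δ) < y ∧ δ < a := by
      have h1 : Tendsto (fun δ : ℝ => S * ((b - a) + 2 * δ)) (𝓝[>] 0)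
          (𝓝 (S * ((b - a) + 2 * 0))) := by
        apply Tendsto.mono_left _ nhdsWithin_le_nhds
        exact Continuous.tendsto (by fun_prop) 0
      rw [mul_zero, add_zero] at h1
      filter_upwards [h1.eventually (gt_mem_nhds hy),
        nhdsWithin_le_nhds (gt_mem_nhds ha)] with δ h2 h3
      exact ⟨h2, h3⟩
    obtain ⟨δ, ⟨hδ1, hδ2⟩, hδ0⟩ := (hev.and self_mem_nhdsWithin).exists
    have hδ0' : (0:ℝ) < δ := hδ0
    obtain ⟨β, hβ1, hβ2⟩ := hbump ((b - a) / 2) ((b - a) / 2 + δ) (by linarith) (by linarith)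
      (by linarith)
    have hle : β.rOut ≤ (a + b) / 2 := by rw [hβ2]; linarith
    have e1 : (a + b) / 2 - β.rOut = a - δ := by rw [hβ2]; ring
    have e2 : (a + b) / 2 + β.rOut = b + δ := by rw [hβ2]; ring
    have h1 : ∫ u in Ioi (0:ℝ), β u ≤ (b - a) + 2 * δ := by
      have h2 := hcomp β (fun _ => 1) continuous_const hle
      simp only [mul_one] at h2
      rw [h2, e1, e2]
      have h3 : ∫ u in (a - δ)..(b + δ), β u ≤ ∫ u in (a - δ)..(b + δ), (1:ℝ) := by
        apply intervalIntegral.integral_mono_on (by linarith)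
          (β.continuous.intervalIntegrable _ _) (continuous_const.intervalIntegrable _ _)
        intro u _
        exact β.le_one
      refine h3.trans (le_of_eq ?_)
      simp
      ring
    have h2 : S * ∫ u in Ioi (0:ℝ), β u < y :=
      lt_of_le_of_lt (mul_le_mul_of_nonneg_left h1 hS) hδ1
    filter_upwards [(hlimb β hle).eventually (gt_mem_nhds h2)] with T hT
    refine lt_of_le_of_lt ?_ hT
    rw [hcomp β (f T) (hf T) hle, e1, e2]
    have h3 : ∫ u in a..b, f T u = ∫ u in a..b, β u * f T u := by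
      apply intervalIntegral.integral_congr
      intro u hu
      rw [uIcc_of_le hab.le] at hu
      have h4 : β u = 1 := by
        apply β.one_of_mem_closedBall
        rw [Metric.mem_closedBall, Real.dist_eq, hβ1, abs_le]
        constructor <;> linarith [hu.1, hu.2]
      simp only
      rw [h4, one_mul]
    rw [h3]
    exact intervalIntegral.integral_mono_interval (by linarith) hab.le (by linarith)
      (Eventually.of_forall fun u => mul_nonneg β.nonneg (h0 T u)) (hβi β _ (hf T) _ _)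

end Pool.Agent.K4H77.SV
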